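import Mathlib
import Pool.Agent.H2.MG6

set_option autoImplicit false

namespace Pool.Agent.Results.MP_335999_gt.Abelian

/-- Every locally minimal abelian group of countable tightness is metrizable. -/
theorem result (G : Type) [CommGroup G] [τ : TopologicalSpace G] [IsTopologicalGroup G]
    [T2Space G]
    (hmin : ∃ V ∈ nhds (1 : G), ∀ σ : TopologicalSpace G,
      @IsTopologicalGroup G σ _ → @T2Space G σ → τ ≤ σ → V ∈ @nhds G σ 1 → σ = τ)
    (htight : ∀ (A : Set G) (x : G), x ∈ closure A → ∃ B ⊆ A, B.Countable ∧ x ∈ closure B) :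
    TopologicalSpace.MetrizableSpace G := by
  obtain ⟨V, hV, h⟩ := hmin
  refine H2.MG.ab_metr hV (H2.MG.LM.of_top h) fun B hB => ?_
  obtain ⟨C, h5, h6, h7⟩ := htight B 1 hB
  exact ⟨C, h5, Cardinal.le_aleph0_iff_set_countable.2 h6, h7⟩

end Pool.Agent.Results.MP_335999_gt.Abelian
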