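import Mathlib
import Pool.Agent.H2.MG7

set_option autoImplicit false

namespace Pool.Agent.Results.MP_335999_gt.NonAbelian

/-- A minimal group of countable tightness that is not sequential. -/
theorem result : ∃ (G : Type) (_ : Group G) (τ : TopologicalSpace G), IsTopologicalGroup G ∧
    T2Space G ∧
    (∀ σ : TopologicalSpace G, @IsTopologicalGroup G σ _ → @T2Space G σ → τ ≤ σ → σ = τ) ∧
    (∀ (A : Set G) (x : G), x ∈ closure A → ∃ B ⊆ A, B.Countable ∧ x ∈ closure B) ∧
    ¬ SequentialSpace G := H2.MG.heis

end Pool.Agent.Results.MP_335999_gt.NonAbelian
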